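import Pool.Agent.REV.StmtsU2
import Pool.Agent.BPH.Sph

set_option autoImplicit false

/-!
# REV, row HZR: the support function determines `RA`
-/

open MeasureTheory Module Set Filter
open scoped RealInnerProductSpace Topology

namespace Pool.Agent.REV.H59

open Pool.Agent.BPH

theorem sign_deriv {a b : ℝ} (ha : a ≠ 0) :
    HasDerivAt (fun s : ℝ => |a + s * b|) (Real.sign a * b) 0 := by
  have h1 : HasDerivAt (fun s : ℝ => a + s * b) b 0 := by
    have := ((hasDerivAt_id (0 : ℝ)).mul_const b).const_add a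
    simpa using this
  have h0 : (fun s : ℝ => a + s * b) 0 = a := by simp
  rcases lt_or_gt_of_ne ha with h | h
  · have h2 : HasDerivAt (|·|) (-1 : ℝ) ((fun s : ℝ => a + s * b) 0) := by
      rw [h0]; exact hasDerivAt_abs_neg h
    have h3 := h2.comp 0 h1
    rw [Real.sign_of_neg h]
    exact h3
  · have h2 : HasDerivAt (|·|) (1 : ℝ) ((fun s : ℝ => a + s * b) 0) := by
      rw [h0]; exact hasDerivAt_abs_pos h
    have h3 := h2.comp 0 h1
    rw [Real.sign_of_pos h]
    exact h3

variable {E : Type} [NormedAddCommGroup E] [InnerProductSpace ℝ E] [FiniteDimensional ℝ E]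
  [MeasurableSpace E] [BorelSpace E]

/-- the directional derivative of the support function -/
theorem hz_deriv [Nontrivial E] {f : E → ℝ} (hf : Measurable f) {C : ℝ} (hC : ∀ x, |f x| ≤ C)
    {u m : E} (hu : u ≠ 0) (hm : ‖m‖ = 1) :
    HasDerivAt (fun s : ℝ => hz f (u + s • m)) (∫ x, Real.sign ⟪u, x⟫ * ⟪m, x⟫ * f x ∂sph E) 0 := by
  have sp := sph_facts
  have hprob : IsProbabilityMeasure (sph E) := sp.prob
  have hC0 : 0 ≤ C := (abs_nonneg _).trans (hC 0)
  have hnorm := sp.norm (E := E)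
  have hne : ∀ᵐ x ∂sph E, ⟪u, x⟫ ≠ 0 := by
    have h1 : (ℝ ∙ u)ᗮ ≠ ⊤ := by
      intro h
      have h2 : u ∈ (ℝ ∙ u)ᗮ := by rw [h]; exact Submodule.mem_top
      rw [Submodule.mem_orthogonal_singleton_iff_inner_right] at h2
      exact hu (inner_self_eq_zero.mp h2)
    have h3 := sp.null (ℝ ∙ u)ᗮ h1
    rw [ae_iff]
    refine measure_mono_null (fun x hx => ?_) h3
    simp only [ne_eq, not_not, Set.mem_ofPred_eq] at hx
    rw [SetLike.mem_coe, Submodule.mem_orthogonal_singleton_iff_inner_right]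
    exact hx
  have hFm : ∀ s : ℝ, AEStronglyMeasurable (fun x : E => |⟪u + s • m, x⟫| * f x) (sph E) :=
    fun s => ((by fun_prop : Measurable fun x : E => |⟪u + s • m, x⟫|).mul hf).aestronglyMeasurable
  have hsgn : Measurable (fun x : ℝ => Real.sign x) := by
    unfold Real.sign
    exact Measurable.ite measurableSet_Iio measurable_const
      (Measurable.ite measurableSet_Ioi measurable_const measurable_const)
  have key := hasDerivAt_integral_of_dominated_loc_of_lip (μ := sph E) (𝕜 := ℝ)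
    (F := fun (s : ℝ) (x : E) => |⟪u + s • m, x⟫| * f x) (x₀ := (0 : ℝ)) (s := univ)
    (F' := fun x : E => Real.sign ⟪u, x⟫ * ⟪m, x⟫ * f x) (bound := fun _ => C)
    univ_mem (Eventually.of_forall hFm) ?_ ?_ ?_ (integrable_const _) ?_
  · exact key.2
  · refine Integrable.of_bound (hFm 0) (‖u‖ * C) ?_
    filter_upwards [hnorm] with x hx
    rw [Real.norm_eq_abs, abs_mul, abs_abs, zero_smul, add_zero]
    have h := abs_real_inner_le_norm u x
    rw [hx, mul_one] at h
    exact mul_le_mul h (hC x) (abs_nonneg _) (norm_nonneg _)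
  · refine Measurable.aestronglyMeasurable ?_
    exact ((hsgn.comp (by fun_prop)).mul (by fun_prop)).mul hf
  · filter_upwards [hnorm] with x hx
    refine LipschitzOnWith.of_dist_le_mul fun s _ s' _ => ?_
    rw [Real.dist_eq, Real.dist_eq, Real.coe_nnabs, abs_of_nonneg hC0, ← sub_mul, abs_mul]
    have h1 : |(|⟪u + s • m, x⟫| - |⟪u + s' • m, x⟫|)| ≤ |s - s'| := by
      refine (abs_abs_sub_abs_le _ _).trans ?_
      rw [← inner_sub_left, add_sub_add_left_eq_sub, ← sub_smul, inner_smul_left, abs_mul]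
      have h2 := abs_real_inner_le_norm m x
      rw [hx, hm, mul_one] at h2
      simp only [conj_trivial]
      exact mul_le_of_le_one_right (abs_nonneg _) h2
    calc |(|⟪u + s • m, x⟫| - |⟪u + s' • m, x⟫|)| * |f x| ≤ |s - s'| * C :=
          mul_le_mul h1 (hC x) (abs_nonneg _) (abs_nonneg _)
      _ = C * |s - s'| := mul_comm _ _
  · filter_upwards [hne] with x hx
    have h1 := (sign_deriv (b := ⟪m, x⟫) hx).mul_const (f x)
    refine h1.congr_of_eventuallyEq (Eventually.of_forall fun s => ?_)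
    simp only
    rw [inner_add_left, inner_smul_left]
    simp

theorem hzr (dhz : DhzStmt) : HzrStmt := by
  intro E _ _ _ _ _ h4 e he φ ψ κ0 hφ hψ heq c hc
  have hnt : Nontrivial E := Module.nontrivial_of_finrank_pos (R := ℝ) (by omega)
  obtain ⟨κ, hκ, hd⟩ := dhz E h4
  -- a unit vector orthogonal to `e`
  obtain ⟨m, hm, hem⟩ : ∃ m : E, ‖m‖ = 1 ∧ ⟪e, m⟫ = 0 := by
    have h1 : (ℝ ∙ e)ᗮ ≠ ⊥ := by
      intro h
      have h2 := Submodule.finrank_add_finrank_orthogonal (ℝ ∙ e)
      rw [h, finrank_bot] at h2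
      have h3 := finrank_span_singleton (K := ℝ) (v := e) (by
        intro h0; rw [h0, norm_zero] at he; exact zero_ne_one he)
      omega
    obtain ⟨y, hy, hy0⟩ := Submodule.exists_mem_ne_zero_of_ne_bot h1
    refine ⟨nrm y, ?_, ?_⟩
    · rw [nrm, norm_smul, norm_inv, norm_norm, inv_mul_cancel₀ (norm_ne_zero_iff.mpr hy0)]
    · rw [Submodule.mem_orthogonal_singleton_iff_inner_right] at hy
      rw [nrm, inner_smul_right, hy, mul_zero]
  set t := Real.sqrt (1 - c ^ 2) with ht
  have htc : t ^ 2 + c ^ 2 = 1 := by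
    rw [ht, Real.sq_sqrt (by nlinarith [hc.1, hc.2])]
    ring
  set u := t • e + c • m with hu
  have hu1 : ‖u‖ ^ 2 = 1 := by
    rw [hu, @norm_add_sq_real, norm_smul, norm_smul, he, hm, inner_smul_left, inner_smul_right, hem]
    simp only [Real.norm_eq_abs, mul_one, sq_abs, mul_zero, add_zero]
    exact htc
  have hu0 : u ≠ 0 := by
    intro h
    rw [h, norm_zero] at hu1
    norm_num at hu1
  have hzm : ∀ χ : ℝ → ℝ, BM χ → Measurable (zon e χ) ∧ ∃ C, ∀ x, |zon e χ x| ≤ C := by
    intro χ hχ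
    obtain ⟨hm', C, hC⟩ := hχ
    exact ⟨hm'.comp (by fun_prop), C, fun x => hC _⟩
  obtain ⟨hm1, C1, hC1⟩ := hzm φ hφ
  obtain ⟨hm2, C2, hC2⟩ := hzm ψ hψ
  have hd1 := hz_deriv hm1 hC1 hu0 hm
  have hd2 := (hz_deriv hm2 hC2 hu0 hm).const_mul κ0
  have hfun : (fun s : ℝ => hz (zon e φ) (u + s • m)) =
      fun s : ℝ => κ0 * hz (zon e ψ) (u + s • m) := funext fun s => heq _
  rw [hfun] at hd1
  have huniq := hd1.unique hd2
  rw [hd e m he hm hem t c htc hc.1 φ hφ, hd e m he hm hem t c htc hc.1 ψ hψ] at huniq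
  have hkc : κ * c ≠ 0 := mul_ne_zero hκ.ne' hc.1.ne'
  have h5 : κ * c * RA (finrank ℝ E) φ c = κ * c * (κ0 * RA (finrank ℝ E) ψ c) := by
    linear_combination huniq
  exact mul_left_cancel₀ hkc h5

end Pool.Agent.REV.H59
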