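import Pool.Agent.REV.StmtsP3

set_option autoImplicit false

namespace Pool.Agent.REV.H59

open Set MeasureTheory Filter
open scoped Topology

/-- the difference of the kernels -/
lemma hke_nonneg (u δ : ℝ) (hu : 0 < u) (hδ : 0 < δ) :
    0 ≤ u ^ (-(1 / 2) : ℝ) - (u + δ) ^ (-(1 / 2) : ℝ) := by
  have := Real.rpow_le_rpow_of_nonpos hu (by linarith : u ≤ u + δ)
    (by norm_num : (-(1 / 2) : ℝ) ≤ 0)
  linarith

lemma hke_le1 (u δ : ℝ) (hu : 0 < u) (hδ : 0 < δ) :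
    u ^ (-(1 / 2) : ℝ) - (u + δ) ^ (-(1 / 2) : ℝ) ≤ u ^ (-(1 / 2) : ℝ) := by
  have : 0 ≤ (u + δ) ^ (-(1 / 2) : ℝ) := by positivity
  linarith

lemma hke_le2 (u δ : ℝ) (hu : 0 < u) (hδ : 0 < δ) :
    u ^ (-(1 / 2) : ℝ) - (u + δ) ^ (-(1 / 2) : ℝ) ≤ δ / 2 * u ^ (-(3 / 2) : ℝ) := by
  have hs : 0 < Real.sqrt u := Real.sqrt_pos.mpr hu
  have hs' : 0 < Real.sqrt (u + δ) := Real.sqrt_pos.mpr (by linarith)
  have hss : Real.sqrt u ≤ Real.sqrt (u + δ) := Real.sqrt_le_sqrt (by linarith)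
  have e1 : Real.sqrt u ^ 2 = u := Real.sq_sqrt hu.le
  have e2 : Real.sqrt (u + δ) ^ 2 = u + δ := Real.sq_sqrt (by linarith)
  have h1 : u ^ (-(1 / 2) : ℝ) = (Real.sqrt u)⁻¹ := by
    rw [Real.rpow_neg hu.le, ← Real.sqrt_eq_rpow]
  have h2 : (u + δ) ^ (-(1 / 2) : ℝ) = (Real.sqrt (u + δ))⁻¹ := by
    rw [Real.rpow_neg (by linarith), ← Real.sqrt_eq_rpow]
  have h3 : u ^ (-(3 / 2) : ℝ) = (Real.sqrt u ^ 3)⁻¹ := by
    have : (-(3 / 2) : ℝ) = -(1 / 2) * 3 := by norm_num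
    rw [this, Real.rpow_mul hu.le, h1]
    have : (3 : ℝ) = ((3 : ℕ) : ℝ) := by norm_num
    rw [this, Real.rpow_natCast, inv_pow]
  rw [h1, h2, h3]
  set a := Real.sqrt u with ha
  set b := Real.sqrt (u + δ) with hb
  have hδ' : δ = b ^ 2 - a ^ 2 := by linarith
  rw [hδ']
  have key : (b ^ 2 - a ^ 2) / 2 * (a ^ 3)⁻¹ - (a⁻¹ - b⁻¹) =
      (b - a) * ((b - a) * (b + 2 * a)) / (2 * a ^ 3 * b) := by
    field_simp
    ring
  have : 0 ≤ (b - a) * ((b - a) * (b + 2 * a)) / (2 * a ^ 3 * b) := by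
    have : 0 ≤ b - a := by linarith
    positivity
  linarith

/-- the integrand -/
noncomputable def hF (α δ u : ℝ) : ℝ := (u ^ (-(1 / 2) : ℝ) - (u + δ) ^ (-(1 / 2) : ℝ)) * u ^ α

lemma hF_meas (α δ : ℝ) : Measurable (hF α δ) := by
  unfold hF
  fun_prop

lemma hF_nonneg (α δ u : ℝ) (hu : 0 < u) (hδ : 0 < δ) : 0 ≤ hF α δ u :=
  mul_nonneg (hke_nonneg u δ hu hδ) (by positivity)

lemma hF_le1 (α δ u : ℝ) (hu : 0 < u) (hδ : 0 < δ) : hF α δ u ≤ u ^ (α - 1 / 2) := by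
  have h := mul_le_mul_of_nonneg_right (hke_le1 u δ hu hδ) (by positivity : 0 ≤ u ^ α)
  have e : u ^ (-(1 / 2) : ℝ) * u ^ α = u ^ (α - 1 / 2) := by
    rw [← Real.rpow_add hu]
    congr 1
    ring
  rw [e] at h
  exact h

lemma hF_le2 (α δ u : ℝ) (hu : 0 < u) (hδ : 0 < δ) : hF α δ u ≤ δ / 2 * u ^ (α - 3 / 2) := by
  have h := mul_le_mul_of_nonneg_right (hke_le2 u δ hu hδ) (by positivity : 0 ≤ u ^ α)
  have e : δ / 2 * u ^ (-(3 / 2) : ℝ) * u ^ α = δ / 2 * u ^ (α - 3 / 2) := by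
    rw [mul_assoc, ← Real.rpow_add hu]
    congr 2
    ring
  rw [e] at h
  exact h

lemma hF_int (α δ X : ℝ) (hα : 0 ≤ α) (hδ : 0 < δ) (hX : 0 < X) :
    IntervalIntegrable (hF α δ) volume 0 X := by
  have h0 : IntervalIntegrable (fun u : ℝ => u ^ (α - 1 / 2)) volume 0 X :=
    intervalIntegral.intervalIntegrable_rpow' (by linarith)
  rw [intervalIntegrable_iff_integrableOn_Ioc_of_le hX.le] at h0 ⊢
  refine Integrable.mono' h0 (hF_meas α δ).aestronglyMeasurable ?_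
  filter_upwards [ae_restrict_mem measurableSet_Ioc] with u hu
  rw [Real.norm_of_nonneg (hF_nonneg α δ u hu.1 hδ)]
  exact hF_le1 α δ u hu.1 hδ

lemma hF_A (α δ Y : ℝ) (hα : 0 ≤ α) (hδ : 0 < δ) (hY : 0 < Y) :
    ∫ u in (0 : ℝ)..Y, hF α δ u ≤ Y ^ (α + 1 / 2) / (α + 1 / 2) := by
  have h0 : IntervalIntegrable (fun u : ℝ => u ^ (α - 1 / 2)) volume 0 Y :=
    intervalIntegral.intervalIntegrable_rpow' (by linarith)
  have h1 : ∫ u in (0 : ℝ)..Y, hF α δ u ≤ ∫ u in (0 : ℝ)..Y, u ^ (α - 1 / 2) := by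
    refine intervalIntegral.integral_mono_on_of_le_Ioo hY.le (hF_int α δ Y hα hδ hY) h0 ?_
    intro u hu
    exact hF_le1 α δ u hu.1 hδ
  rw [integral_rpow (Or.inl (by linarith))] at h1
  have e : α - 1 / 2 + 1 = α + 1 / 2 := by ring
  rw [e, Real.zero_rpow (by linarith), sub_zero] at h1
  exact h1

lemma hF_B (α δ X : ℝ) (hα : α < 1 / 2) (hα0 : 0 ≤ α) (hδ : 0 < δ) (hX : δ ≤ X) :
    ∫ u in δ..X, hF α δ u ≤ δ ^ (α + 1 / 2) / (2 * (1 / 2 - α)) := by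
  have hX0 : 0 < X := lt_of_lt_of_le hδ hX
  have hm : (0 : ℝ) ∉ Set.uIcc δ X := by
    rw [Set.uIcc_of_le hX]
    intro h
    exact absurd h.1 (not_le.mpr hδ)
  have h0 : IntervalIntegrable (fun u : ℝ => δ / 2 * u ^ (α - 3 / 2)) volume δ X :=
    (intervalIntegral.intervalIntegrable_rpow (Or.inr hm)).const_mul _
  have hi : IntervalIntegrable (hF α δ) volume δ X :=
    (hF_int α δ X hα0 hδ hX0).mono_set (by
      rw [Set.uIcc_of_le hX, Set.uIcc_of_le hX0.le]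
      exact Set.Icc_subset_Icc_left hδ.le)
  have h1 : ∫ u in δ..X, hF α δ u ≤ ∫ u in δ..X, δ / 2 * u ^ (α - 3 / 2) := by
    refine intervalIntegral.integral_mono_on_of_le_Ioo hX hi h0 ?_
    intro u hu
    exact hF_le2 α δ u (hδ.trans hu.1) hδ
  rw [intervalIntegral.integral_const_mul,
    integral_rpow (Or.inr ⟨by linarith, hm⟩)] at h1
  have e : α - 3 / 2 + 1 = α - 1 / 2 := by ring
  rw [e] at h1
  have h2 : 0 ≤ X ^ (α - 1 / 2) := by positivity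
  have h3 : δ ^ (α + 1 / 2) = δ * δ ^ (α - 1 / 2) := by
    rw [show α + 1 / 2 = 1 + (α - 1 / 2) by ring, Real.rpow_add hδ, Real.rpow_one]
  have h4 : 0 < 1 / 2 - α := by linarith
  refine h1.trans ?_
  rw [h3]
  have h5 : δ / 2 * ((X ^ (α - 1 / 2) - δ ^ (α - 1 / 2)) / (α - 1 / 2)) =
      (δ * δ ^ (α - 1 / 2)) / (2 * (1 / 2 - α)) - δ * X ^ (α - 1 / 2) / (2 * (1 / 2 - α)) := by
    have h6 : (α - 1 / 2) = -(1 / 2 - α) := by ring
    rw [h6]
    generalize 1 / 2 - α = w at h4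
    have : w ≠ 0 := h4.ne'
    field_simp
    ring
  rw [h5]
  have : 0 ≤ δ * X ^ (α - 1 / 2) / (2 * (1 / 2 - α)) := by positivity
  linarith

theorem hke : HkeStmt := by
  intro α γ hE X δ hX hX1 hδ
  have hα0 : 0 ≤ α := by
    rcases hE with h | h | h <;> rw [h.1] <;> norm_num
  refine ⟨hF_int α δ X hα0 hδ hX, ?_⟩
  change ∫ u in (0 : ℝ)..X, hF α δ u ≤ 4 * δ ^ γ
  have small : α < 1 / 2 → 1 / 2 - α ≥ 1 / 4 → γ = α + 1 / 2 →
      ∫ u in (0 : ℝ)..X, hF α δ u ≤ 4 * δ ^ γ := by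
    intro h1 h2 h3
    have hp : 0 < δ ^ γ := by positivity
    have b1 : δ ^ (α + 1 / 2) / (α + 1 / 2) ≤ 2 * δ ^ γ := by
      rw [← h3, div_le_iff₀ (by linarith)]
      nlinarith
    have b2 : δ ^ (α + 1 / 2) / (2 * (1 / 2 - α)) ≤ 2 * δ ^ γ := by
      rw [← h3, div_le_iff₀ (by linarith)]
      nlinarith
    rcases le_total X δ with hXδ | hXδ
    · have h4 := hF_A α δ X hα0 hδ hX
      have h5 : X ^ (α + 1 / 2) ≤ δ ^ (α + 1 / 2) :=
        Real.rpow_le_rpow hX.le hXδ (by linarith)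
      have h6 : X ^ (α + 1 / 2) / (α + 1 / 2) ≤ δ ^ (α + 1 / 2) / (α + 1 / 2) :=
        div_le_div_of_nonneg_right h5 (by linarith)
      linarith
    · have h4 := hF_A α δ δ hα0 hδ hδ
      have h5 := hF_B α δ X h1 hα0 hδ hXδ
      have i1 := hF_int α δ δ hα0 hδ hδ
      have i2 : IntervalIntegrable (hF α δ) volume δ X :=
        (hF_int α δ X hα0 hδ hX).mono_set (by
          rw [Set.uIcc_of_le hXδ, Set.uIcc_of_le hX.le]
          exact Set.Icc_subset_Icc_left hδ.le)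
      have h6 := intervalIntegral.integral_add_adjacent_intervals i1 i2
      linarith
  rcases hE with ⟨h1, h2⟩ | ⟨h1, h2⟩ | ⟨h1, h2⟩
  · exact small (by rw [h1]; norm_num) (by rw [h1]; norm_num) (by rw [h1, h2]; norm_num)
  · exact small (by rw [h1]; norm_num) (by rw [h1]; norm_num) (by rw [h1, h2]; norm_num)
  · have h0 : IntervalIntegrable (fun u : ℝ => δ / 2 * u ^ (α - 3 / 2)) volume 0 X :=
      (intervalIntegral.intervalIntegrable_rpow' (by rw [h1]; norm_num)).const_mul _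
    have h3 : ∫ u in (0 : ℝ)..X, hF α δ u ≤ ∫ u in (0 : ℝ)..X, δ / 2 * u ^ (α - 3 / 2) := by
      refine intervalIntegral.integral_mono_on_of_le_Ioo hX.le (hF_int α δ X hα0 hδ hX) h0 ?_
      intro u hu
      exact hF_le2 α δ u hu.1 hδ
    rw [intervalIntegral.integral_const_mul,
      integral_rpow (Or.inl (by rw [h1]; norm_num))] at h3
    have e : α - 3 / 2 + 1 = 1 / 4 := by rw [h1]; norm_num
    rw [e, Real.zero_rpow (by norm_num), sub_zero] at h3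
    have h4 : X ^ (1 / 4 : ℝ) ≤ 1 := Real.rpow_le_one hX.le hX1 (by norm_num)
    rw [h2, Real.rpow_one]
    have h5 : 0 ≤ X ^ (1 / 4 : ℝ) := by positivity
    have h6 : δ / 2 * (X ^ (1 / 4 : ℝ) / (1 / 4)) = 2 * δ * X ^ (1 / 4 : ℝ) := by ring
    rw [h6] at h3
    nlinarith

end Pool.Agent.REV.H59
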