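import Pool.Agent.REV.StmtsP3

set_option autoImplicit false

namespace Pool.Agent.REV.H59

open Set MeasureTheory Filter
open scoped Topology

lemma pfo_w_pos (c τ : ℝ) : 0 < Real.sqrt (1 + c ^ 2 * τ ^ 2) := by
  apply Real.sqrt_pos.mpr
  positivity

lemma pfo_w_sq (c τ : ℝ) : Real.sqrt (1 + c ^ 2 * τ ^ 2) ^ 2 = 1 + c ^ 2 * τ ^ 2 :=
  Real.sq_sqrt (by positivity)

lemma pfo_deriv (c τ : ℝ) : HasDerivAt (fun x : ℝ => (Real.sqrt (1 + c ^ 2 * x ^ 2))⁻¹)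
    (-(c ^ 2 * τ) / Real.sqrt (1 + c ^ 2 * τ ^ 2) ^ 3) τ := by
  have h1 : HasDerivAt (fun x : ℝ => 1 + c ^ 2 * x ^ 2) (c ^ 2 * (2 * τ)) τ := by
    have h := ((hasDerivAt_pow 2 τ).const_mul (c ^ 2)).const_add 1
    simpa using h
  have hne : (1 + c ^ 2 * τ ^ 2 : ℝ) ≠ 0 := by positivity
  have h2 := (h1.sqrt hne).fun_inv (pfo_w_pos c τ).ne'
  have hw := (pfo_w_pos c τ).ne'
  refine h2.congr_deriv ?_
  field_simp

lemma pfo_image (c : ℝ) (hc : 0 < c) :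
    (fun x : ℝ => (Real.sqrt (1 + c ^ 2 * x ^ 2))⁻¹) '' Ioi 0 = Ioo 0 1 := by
  ext r
  constructor
  · rintro ⟨x, hx, rfl⟩
    have hx' : 0 < x := hx
    have hw := pfo_w_pos c x
    refine ⟨by positivity, ?_⟩
    apply inv_lt_one_of_one_lt₀
    have : (1 : ℝ) < 1 + c ^ 2 * x ^ 2 := by
      have : 0 < c ^ 2 * x ^ 2 := by positivity
      linarith
    calc (1 : ℝ) = Real.sqrt 1 := by simp
      _ < _ := Real.sqrt_lt_sqrt (by norm_num) this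
  · rintro ⟨h0, h1⟩
    refine ⟨Real.sqrt (1 - r ^ 2) / (c * r), ?_, ?_⟩
    · have : 0 < Real.sqrt (1 - r ^ 2) := Real.sqrt_pos.mpr (by nlinarith)
      have h3 : 0 < Real.sqrt (1 - r ^ 2) / (c * r) := by positivity
      exact h3
    · show (Real.sqrt (1 + c ^ 2 * (Real.sqrt (1 - r ^ 2) / (c * r)) ^ 2))⁻¹ = r
      have hs : Real.sqrt (1 - r ^ 2) ^ 2 = 1 - r ^ 2 := Real.sq_sqrt (by nlinarith)
      have he : 1 + c ^ 2 * (Real.sqrt (1 - r ^ 2) / (c * r)) ^ 2 = (r⁻¹) ^ 2 := by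
        rw [div_pow, hs]
        field_simp
        ring
      rw [he, Real.sqrt_sq (by positivity), inv_inv]

lemma pfo_inj (c : ℝ) (hc : 0 < c) :
    InjOn (fun x : ℝ => (Real.sqrt (1 + c ^ 2 * x ^ 2))⁻¹) (Ioi 0) := by
  intro x hx y hy hxy
  have hx' : 0 < x := hx
  have hy' : 0 < y := hy
  have h1 : Real.sqrt (1 + c ^ 2 * x ^ 2) = Real.sqrt (1 + c ^ 2 * y ^ 2) := inv_injective hxy
  have h2 : 1 + c ^ 2 * x ^ 2 = 1 + c ^ 2 * y ^ 2 := by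
    rw [← pfo_w_sq c x, ← pfo_w_sq c y, h1]
  have h3 : x ^ 2 = y ^ 2 := by
    have hc2 : (c ^ 2 : ℝ) ≠ 0 := by positivity
    have : c ^ 2 * x ^ 2 = c ^ 2 * y ^ 2 := by linarith
    exact mul_left_cancel₀ hc2 this
  nlinarith [sq_nonneg (x - y), sq_nonneg (x + y)]

/-- substitution `r = (1+c^2τ^2)^(-1/2)` -/
lemma pfo_subst (c : ℝ) (hc : 0 < c) (g : ℝ → ℝ) :
    ∫ r in (0 : ℝ)..1, g r = ∫ τ in Ioi (0 : ℝ),
      c ^ 2 * τ / Real.sqrt (1 + c ^ 2 * τ ^ 2) ^ 3 * g (Real.sqrt (1 + c ^ 2 * τ ^ 2))⁻¹ := by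
  rw [intervalIntegral.integral_of_le zero_le_one, integral_Ioc_eq_integral_Ioo,
    ← pfo_image c hc, integral_image_eq_integral_abs_deriv_smul measurableSet_Ioi
      (fun x _ => (pfo_deriv c x).hasDerivWithinAt) (pfo_inj c hc)]
  refine setIntegral_congr_fun measurableSet_Ioi (fun τ hτ => ?_)
  have hτ' : 0 < τ := hτ
  have hw := pfo_w_pos c τ
  have h1 : |(-(c ^ 2 * τ) / Real.sqrt (1 + c ^ 2 * τ ^ 2) ^ 3)| =
      c ^ 2 * τ / Real.sqrt (1 + c ^ 2 * τ ^ 2) ^ 3 := by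
    rw [neg_div, abs_neg, abs_of_pos (by positivity)]
  simp only [h1, smul_eq_mul]

lemma pfo_uU (f : ℝ → ℝ) (c τ : ℝ) (hc : 0 < c) (hc1 : c ≤ 1) :
    uU f (Real.sqrt ((Real.sqrt (1 - c ^ 2) / c) ^ 2 + τ ^ 2)) =
      c ^ 4 / Real.sqrt (1 + c ^ 2 * τ ^ 2) ^ 4 *
        f ((Real.sqrt (1 + c ^ 2 * τ ^ 2))⁻¹ * c) := by
  have hw := pfo_w_pos c τ
  have hw2 := pfo_w_sq c τ
  have hs : Real.sqrt (1 - c ^ 2) ^ 2 = 1 - c ^ 2 := Real.sq_sqrt (by nlinarith)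
  have h1 : 1 + Real.sqrt ((Real.sqrt (1 - c ^ 2) / c) ^ 2 + τ ^ 2) ^ 2 =
      (Real.sqrt (1 + c ^ 2 * τ ^ 2) / c) ^ 2 := by
    rw [Real.sq_sqrt (by positivity), div_pow, div_pow, hs, hw2]
    field_simp
    ring
  unfold uU
  rw [h1, Real.sqrt_sq (by positivity)]
  congr 1
  · field_simp
  · congr 1
    field_simp

lemma pfo_rp (c τ : ℝ) (hc : 0 < c) (hτ : 0 < τ) :
    1 - (Real.sqrt (1 + c ^ 2 * τ ^ 2))⁻¹ ^ 2 = (c * τ / Real.sqrt (1 + c ^ 2 * τ ^ 2)) ^ 2 := by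
  have hw := pfo_w_pos c τ
  have hw2 := pfo_w_sq c τ
  field_simp
  rw [hw2]
  ring

theorem pfo : PfoStmt := by
  intro f _ c hc
  obtain ⟨hc0, hc1⟩ := hc
  constructor
  · unfold RB vV
    rw [pfo_subst c hc0, ← integral_const_mul]
    refine setIntegral_congr_fun measurableSet_Ioi (fun τ hτ => ?_)
    have hτ' : 0 < τ := hτ
    have hw := pfo_w_pos c τ
    have he : (((3 : ℕ) : ℝ) - 4) / 2 = -(1 / 2) := by norm_num
    have hr : ((c * τ / Real.sqrt (1 + c ^ 2 * τ ^ 2)) ^ 2) ^ (-(1 / 2) : ℝ) =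
        (c * τ / Real.sqrt (1 + c ^ 2 * τ ^ 2))⁻¹ := by
      rw [Real.rpow_neg (by positivity), ← Real.sqrt_eq_rpow, Real.sqrt_sq (by positivity)]
    simp only [he, pfo_rp c τ hc0 hτ', hr, pfo_uU f c τ hc0 hc1]
    field_simp
  · unfold RA wW
    rw [pfo_subst c hc0, ← integral_const_mul]
    refine setIntegral_congr_fun measurableSet_Ioi (fun τ hτ => ?_)
    have hτ' : 0 < τ := hτ
    have hw := pfo_w_pos c τ
    have he : (((3 : ℕ) : ℝ) - 2) / 2 = 1 / 2 := by norm_num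
    have hr : ((c * τ / Real.sqrt (1 + c ^ 2 * τ ^ 2)) ^ 2) ^ (1 / 2 : ℝ) =
        c * τ / Real.sqrt (1 + c ^ 2 * τ ^ 2) := by
      rw [← Real.sqrt_eq_rpow, Real.sqrt_sq (by positivity)]
    simp only [he, pfo_rp c τ hc0 hτ', hr, pfo_uU f c τ hc0 hc1]
    field_simp

end Pool.Agent.REV.H59
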