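import Pool.Agent.REV.StmtsP3

set_option autoImplicit false

namespace Pool.Agent.REV.H59

open Set MeasureTheory Filter
open scoped Topology

theorem peq (h : PfoStmt) : PeqStmt := by
  intro C f hf b hb
  have hw2 : Real.sqrt (1 + b ^ 2) ^ 2 = 1 + b ^ 2 := Real.sq_sqrt (by positivity)
  have hw : 0 < Real.sqrt (1 + b ^ 2) := Real.sqrt_pos.mpr (by positivity)
  have hw1 : 1 ≤ Real.sqrt (1 + b ^ 2) := by
    rw [Real.one_le_sqrt]
    nlinarith [sq_nonneg b]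
  have ht0 : 0 ≤ (Real.sqrt (1 + b ^ 2))⁻¹ := by positivity
  have ht1 : (Real.sqrt (1 + b ^ 2))⁻¹ ≤ 1 := inv_le_one_of_one_le₀ hw1
  have hct : Real.sqrt (1 - (Real.sqrt (1 + b ^ 2))⁻¹ ^ 2) = b / Real.sqrt (1 + b ^ 2) := by
    have h1 : 1 - (Real.sqrt (1 + b ^ 2))⁻¹ ^ 2 = (b / Real.sqrt (1 + b ^ 2)) ^ 2 := by
      field_simp
      rw [hw2]
      ring
    rw [h1, Real.sqrt_sq (by positivity)]
  have hc0 : 0 < b / Real.sqrt (1 + b ^ 2) := by positivity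
  have hc1 : b / Real.sqrt (1 + b ^ 2) ≤ 1 := by
    rw [div_le_one hw]
    apply Real.le_sqrt_of_sq_le
    linarith
  obtain ⟨hB, hA⟩ := h f hf.cont _ ⟨hc0, hc1⟩
  have hk : Real.sqrt (1 - (b / Real.sqrt (1 + b ^ 2)) ^ 2) / (b / Real.sqrt (1 + b ^ 2)) =
      1 / b := by
    have h1 : 1 - (b / Real.sqrt (1 + b ^ 2)) ^ 2 = ((Real.sqrt (1 + b ^ 2))⁻¹) ^ 2 := by
      field_simp
      rw [hw2]
      ring
    rw [h1, Real.sqrt_sq ht0]
    field_simp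
  rw [hk] at hB hA
  have he := hf.eq _ ⟨ht0, ht1⟩
  rw [hct] at he
  unfold uU at *
  rw [← hB, ← hA, he]
  have e2 : (3 : ℕ) - 2 = 1 := rfl
  rw [e2, pow_one]
  have e4 : ((1 + b ^ 2) ^ 2 : ℝ) = Real.sqrt (1 + b ^ 2) ^ 4 := by
    rw [show (4 : ℕ) = 2 * 2 from rfl, pow_mul, hw2]
  rw [e4]
  field_simp

end Pool.Agent.REV.H59
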