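import Pool.Agent.REV.StmtsC
import Pool.Agent.Helper55_PB.MidFin

set_option autoImplicit false

/-!
# REV, row CYG: which cylinders are solutions
-/

open MeasureTheory Module Set Filter
open scoped RealInnerProductSpace Pointwise Topology ENNReal

namespace Pool.Agent.REV.H59

open Pool.Agent.Helper55_PB Pool.Agent.Helper28_PB

theorem cyg (cys : CysStmt) : CygStmt := by
  intro E _ _ _ _ _ h2 e H R he hH hR
  obtain ⟨hcomp, hconv, hint, hsym, hsup, hseg⟩ := cys h2 e H R he hH hR
  set n := finrank ℝ E with hn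
  have hκ1 : 0 < ballVol (n - 1) := ballVol_pos _
  have hκ2 : 0 < ballVol (n - 2) := ballVol_pos _
  set κ1 := ballVol (n - 1)
  set κ2 := ballVol (n - 2)
  have hpow : R ^ (n - 1) = R ^ (n - 2) * R := by
    rw [← pow_succ]
    congr 1
    omega
  have hRp : 0 < R ^ (n - 2) := pow_pos hR _
  constructor
  · rintro ⟨c, hG⟩
    have h1 := hG.eq e
    rw [hseg, hsup] at h1
    have hee : ⟪e, e⟫ = 1 := by rw [real_inner_self_eq_norm_sq, he]; norm_num
    rw [hee, one_smul, sub_self, norm_zero, abs_one, mul_zero, mul_zero, mul_one, mul_one,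
      add_zero, add_zero] at h1
    -- a unit vector orthogonal to `e`
    obtain ⟨m, hm, hem⟩ : ∃ m : E, ‖m‖ = 1 ∧ ⟪e, m⟫ = 0 := by
      have h1 : (ℝ ∙ e)ᗮ ≠ ⊥ := by
        intro h
        have h2 := Submodule.finrank_add_finrank_orthogonal (ℝ ∙ e)
        rw [h, finrank_bot] at h2
        have h3 := finrank_span_singleton (K := ℝ) (v := e) (by
          intro h0; rw [h0, norm_zero] at he; exact zero_ne_one he)
        omega
      obtain ⟨y, hy, hy0⟩ := Submodule.exists_mem_ne_zero_of_ne_bot h1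
      refine ⟨‖y‖⁻¹ • y, ?_, ?_⟩
      · rw [norm_smul, norm_inv, norm_norm, inv_mul_cancel₀ (norm_ne_zero_iff.mpr hy0)]
      · rw [Submodule.mem_orthogonal_singleton_iff_inner_right] at hy
        rw [inner_smul_right, hy, mul_zero]
    have h3 := hG.eq m
    rw [hseg, hsup, hem, zero_smul, sub_zero, hm, abs_zero] at h3
    simp only [mul_zero, mul_one, zero_add] at h3
    rw [hpow] at h1
    have h4 : H ^ 2 = R ^ 2 * (κ1 / (2 * κ2)) := by
      have h5 : R ^ (n - 2) * (2 * κ2 * H ^ 2) = R ^ (n - 2) * (κ1 * R ^ 2) := by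
        have h6 : 2 * H * (κ2 * R ^ (n - 2)) * H = c * R * H := by rw [h3]
        have h7 : κ1 * (R ^ (n - 2) * R) * R = c * H * R := by rw [h1]
        linear_combination h6 - h7
      have h8 := mul_left_cancel₀ hRp.ne' h5
      field_simp
      linarith
    have h9 : H = Real.sqrt (H ^ 2) := (Real.sqrt_sq hH.le).symm
    rw [h9, h4, Real.sqrt_mul (sq_nonneg R), Real.sqrt_sq hR.le]
  · intro hHR
    have h4 : H ^ 2 = R ^ 2 * (κ1 / (2 * κ2)) := by
      rw [hHR, mul_pow, Real.sq_sqrt (by positivity)]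
    have h5 : 2 * κ2 * H ^ 2 = κ1 * R ^ 2 := by
      rw [h4]
      field_simp
    refine ⟨κ1 * R ^ (n - 1) / H, hcomp, hconv, hint, hsym, by positivity, fun w => ?_⟩
    rw [hseg, hsup, hpow]
    field_simp
    linear_combination ‖w - ⟪e, w⟫ • e‖ * h5

end Pool.Agent.REV.H59
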