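import Pool.Agent.REV.StmtsG3
import Pool.Agent.Helper19_REV.AVI

set_option autoImplicit false

/-!
# REV, row SLE: slicing of the sphere along the axis
-/

open MeasureTheory Module Set Filter
open scoped RealInnerProductSpace Pointwise Topology ENNReal

namespace Pool.Agent.REV.H59

open Pool.Agent.REV Pool.Agent.BPH

theorem weight_pos {k : ℕ} (hk : 3 ≤ k) :
    0 < ∫ x in (-1 : ℝ)..1, (1 - x ^ 2) ^ (((k : ℝ) - 3) / 2) := by
  have hk' : (3 : ℝ) ≤ k := by exact_mod_cast hk
  have hcont : Continuous fun x : ℝ => (1 - x ^ 2) ^ (((k : ℝ) - 3) / 2) :=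
    Continuous.rpow_const (by fun_prop) fun x => Or.inr (by linarith)
  refine intervalIntegral.intervalIntegral_pos_of_pos_on (hcont.intervalIntegrable _ _)
    (fun x hx => ?_) (by norm_num)
  refine Real.rpow_pos_of_pos ?_ _
  nlinarith [hx.1, hx.2]

theorem sle (lwh : LwhStmt) : SleStmt := by
  intro E _ _ _ _ _ h3
  set n := finrank ℝ E with hn
  set I := ∫ x in (-1 : ℝ)..1, (1 - x ^ 2) ^ (((n : ℝ) - 3) / 2) with hI
  have hI0 : 0 < I := weight_pos h3
  refine ⟨I⁻¹, inv_pos.mpr hI0, fun e he F hF => ?_⟩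
  have hpr := sph_facts.prob (E := E)
  have hnt : Nontrivial E := ⟨⟨e, 0, by
    intro h
    rw [h, norm_zero] at he
    exact zero_ne_one he⟩⟩
  obtain ⟨C, hC⟩ := hF.bdd
  set W : Submodule ℝ E := (ℝ ∙ e)ᗮ with hW
  obtain ⟨lam, hl⟩ := haa W
  have hlp := hl.prob
  let P : E →L[ℝ] W := W.orthogonalProjectionOnto
  let g : ℝ → ℝ := fun a => mS W (fun θ => F (a • e + Real.sqrt (1 - a ^ 2) • θ))
  have hgm : Measurable g := by
    have h1 : Measurable fun p : ℝ × E =>
        F (p.1 • e + Real.sqrt (1 - p.1 ^ 2) • nrm (W.starProjection p.2)) := by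
      refine hF.meas.comp ?_
      refine (measurable_fst.smul_const e).add ?_
      refine Measurable.smul (by fun_prop) ?_
      exact measurable_nrm.comp (W.starProjection.continuous.measurable.comp measurable_snd)
    exact (h1.stronglyMeasurable.integral_prod_right' (ν := sph E)).measurable
  have hgb : ∀ a, |g a| ≤ C := fun a => mS_abs_le sph_facts W fun x => hC _
  have hgBM : BM g := ⟨hgm, C, hgb⟩
  have key := lwh E h3 e he g hgBM
  let Ψ : E × (W →L[ℝ] W) → ℝ := fun p => F (⟪e, p.1⟫ • e + ((p.2 (P p.1) : W) : E))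
  have hmev : Measurable fun p : E × (W →L[ℝ] W) => ((p.2 (P p.1) : W) : E) :=
    measurable_subtype_coe.comp (UniRow.eval_meas.comp
      (measurable_snd.prodMk (P.continuous.measurable.comp measurable_fst)))
  have hmin : Measurable fun p : E × (W →L[ℝ] W) => ⟪e, p.1⟫ := by
    have : Measurable fun x : E => ⟪e, x⟫ := by fun_prop
    exact this.comp measurable_fst
  have hΨm : Measurable Ψ := hF.meas.comp ((hmin.smul_const e).add hmev)
  have hΨi : Integrable Ψ ((sph E).prod lam) :=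
    integrable_bdd hΨm (C := C) (Eventually.of_forall fun p => hC _)
  -- step A
  have hWo : Wᗮ ≠ ⊤ := by
    intro h
    have h1 : W = ⊥ := (Submodule.orthogonal_eq_top_iff _).1 h
    have h2 : (ℝ ∙ e)ᗮ = ⊥ := h1
    rw [Submodule.orthogonal_eq_bot_iff] at h2
    have h3' : finrank ℝ (ℝ ∙ e) = finrank ℝ E := by
      rw [h2, finrank_top]
    have h4 : finrank ℝ (ℝ ∙ e) = 1 := finrank_span_singleton (by
      intro h0
      rw [h0, norm_zero] at he
      exact zero_ne_one he)
    omega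
  have hA : ∀ᵐ x ∂sph E, g ⟪e, x⟫ = ∫ h, Ψ (x, h) ∂lam := by
    have h0 : ∀ᵐ x ∂sph E, x ∉ (Wᗮ : Set E) := by
      rw [ae_iff]
      simp only [not_not]
      exact sph_facts.null Wᗮ hWo
    filter_upwards [h0, sph_facts.norm (E := E)] with x hx hx1
    have hP0 : P x ≠ 0 := by
      intro h
      apply hx
      exact (Submodule.orthogonalProjectionOnto_eq_zero_iff).1 h
    have hy : ‖nrm (P x)‖ = 1 := norm_nrm hP0
    set τ : ℝ := ⟪e, x⟫ with hτ
    let φ : E → ℝ := fun θ => F (τ • e + Real.sqrt (1 - τ ^ 2) • θ)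
    have hφ : Tst φ := ⟨hF.meas.comp (by fun_prop), C, fun θ => hC _⟩
    have h1 : g τ = ∫ h, φ ((h (nrm (P x)) : W) : E) ∂lam :=
      ((uni sph_facts).sub W lam hl (nrm (P x)) hy φ hφ).symm
    rw [h1]
    refine integral_congr_ae (Eventually.of_forall fun h => ?_)
    have h2 : Real.sqrt (1 - τ ^ 2) • ((h (nrm (P x)) : W) : E) = ((h (P x) : W) : E) := by
      have h3 : ‖P x‖ = Real.sqrt (1 - τ ^ 2) := by
        have h4 := H19.norm_proj he hx1
        rw [sq_abs] at h4
        exact h4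
      rw [← h3, nrm, map_smul, Submodule.coe_smul, smul_smul,
        mul_inv_cancel₀ (norm_ne_zero_iff.2 hP0), one_smul]
    show F (τ • e + Real.sqrt (1 - τ ^ 2) • ((h (nrm (P x)) : W) : E)) = Ψ (x, h)
    rw [h2]
  -- step B
  have hB : ∀ᵐ h ∂lam, ∫ x, Ψ (x, h) ∂sph E = ∫ x, F x ∂sph E := by
    filter_upwards [hl.iso] with h hh
    obtain ⟨T, rfl⟩ := hh
    obtain ⟨K, K', hK1, hK2, hK3, hK4⟩ := H19.ext_fix he T
    have h1 : ∫ x, Ψ (x, opT T) ∂sph E = ∫ x, F (K x) ∂sph E := by
      refine integral_congr_ae (Eventually.of_forall fun x => ?_)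
      show F (⟪e, x⟫ • e + ((opT T (P x) : W) : E)) = F (K x)
      rw [hK3]
      rfl
    rw [h1]
    have h2 : ∫ x, F x ∂((sph E).map K) = ∫ x, F (K x) ∂sph E :=
      integral_map K.continuous.measurable.aemeasurable hF.meas.aestronglyMeasurable
    rw [sph_facts.iso K] at h2
    exact h2.symm
  have hmain : ∫ x, g ⟪e, x⟫ ∂sph E = ∫ x, F x ∂sph E := by
    rw [integral_congr_ae hA, integral_integral_swap (f := fun x h => Ψ (x, h)) hΨi,
      integral_congr_ae hB, integral_const]
    simp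
  rw [hmain] at key
  rw [← key, ← mul_assoc, inv_mul_cancel₀ hI0.ne', one_mul]

end Pool.Agent.REV.H59
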